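import Pool.Agent.H608R4.KM.Stm

/-! M1: the main quadratic form. -/

set_option autoImplicit false

namespace Pool.Agent.TH494.KM

open Finset Pool.Agent.H608R4.KM

theorem ind_eq (p : Prop) [Decidable p] : ind p = if p then 1 else 0 := by
  unfold ind
  split_ifs <;> rfl

theorem sam_eq (p q : ZMod 4) : ind (q = p) =
    ind (p = 0) * ind (q = 0) + ind (p = 1) * ind (q = 1) + ind (p = 2) * ind (q = 2) +
      ind (p = 3) * ind (q = 3) := by
  have h : ∀ p q : ZMod 4, (if q = p then (1 : ℤ) else 0) =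
      (if p = 0 then 1 else 0) * (if q = 0 then 1 else 0) +
      (if p = 1 then 1 else 0) * (if q = 1 then 1 else 0) +
      (if p = 2 then 1 else 0) * (if q = 2 then 1 else 0) +
      (if p = 3 then 1 else 0) * (if q = 3 then 1 else 0) := by decide
  have h2 := congrArg (fun z : ℤ => (z : ℝ)) (h p q)
  simp only [ind_eq]
  push_cast at h2
  exact h2

theorem adj_eq (p q : ZMod 4) : ind (q = p + 1) + ind (p = q + 1) =
    (ind (p = 0) * ind (q = 1) + ind (p = 1) * ind (q = 0)) +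
    (ind (p = 1) * ind (q = 2) + ind (p = 2) * ind (q = 1)) +
    (ind (p = 2) * ind (q = 3) + ind (p = 3) * ind (q = 2)) +
    (ind (p = 3) * ind (q = 0) + ind (p = 0) * ind (q = 3)) := by
  have h : ∀ p q : ZMod 4, (if q = p + 1 then (1 : ℤ) else 0) + (if p = q + 1 then 1 else 0) =
      ((if p = 0 then 1 else 0) * (if q = 1 then 1 else 0) +
        (if p = 1 then 1 else 0) * (if q = 0 then 1 else 0)) +
      ((if p = 1 then 1 else 0) * (if q = 2 then 1 else 0) +
        (if p = 2 then 1 else 0) * (if q = 1 then 1 else 0)) +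
      ((if p = 2 then 1 else 0) * (if q = 3 then 1 else 0) +
        (if p = 3 then 1 else 0) * (if q = 2 then 1 else 0)) +
      ((if p = 3 then 1 else 0) * (if q = 0 then 1 else 0) +
        (if p = 0 then 1 else 0) * (if q = 3 then 1 else 0)) := by decide
  have h2 := congrArg (fun z : ℤ => (z : ℝ)) (h p q)
  simp only [ind_eq]
  push_cast at h2
  exact h2

theorem one_eq (p : ZMod 4) : ind (p = 0) + ind (p = 1) + ind (p = 2) + ind (p = 3) = 1 := by
  have h : ∀ p : ZMod 4, (if p = 0 then (1 : ℤ) else 0) + (if p = 1 then 1 else 0) +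
      (if p = 2 then 1 else 0) + (if p = 3 then 1 else 0) = 1 := by decide
  have h2 := congrArg (fun z : ℤ => (z : ℝ)) (h p)
  simp only [ind_eq]
  push_cast at h2
  exact h2

theorem ind_nonneg (p : Prop) : 0 ≤ ind p := by
  unfold ind
  split_ifs <;> norm_num

theorem sum_pair {n : ℕ} (a b s : Fin n → ℝ) :
    ∑ i, ∑ j, a i * b j * (s i - s j) ^ 2 =
      (∑ i, a i * s i ^ 2) * (∑ j, b j) - 2 * ((∑ i, a i * s i) * (∑ j, b j * s j)) +
        (∑ i, a i) * (∑ j, b j * s j ^ 2) := by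
  rw [Finset.sum_mul_sum, Finset.sum_mul_sum, Finset.sum_mul_sum, Finset.mul_sum,
    ← Finset.sum_sub_distrib, ← Finset.sum_add_distrib]
  refine Finset.sum_congr rfl fun i _ => ?_
  rw [Finset.mul_sum, ← Finset.sum_sub_distrib, ← Finset.sum_add_distrib]
  refine Finset.sum_congr rfl fun j _ => ?_
  ring

/-- M1: the main quadratic form. -/
theorem t_M1 : S_M1 := by
  intro n k s hN hs
  have key : ∑ i, ∑ j, (3 / 2 * sam k i j - adj k i j) * (s i - s j) ^ 2 =
      3 / 2 * ((∑ i, ∑ j, ind (k i = 0) * ind (k j = 0) * (s i - s j) ^ 2) +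
        (∑ i, ∑ j, ind (k i = 1) * ind (k j = 1) * (s i - s j) ^ 2) +
        (∑ i, ∑ j, ind (k i = 2) * ind (k j = 2) * (s i - s j) ^ 2) +
        (∑ i, ∑ j, ind (k i = 3) * ind (k j = 3) * (s i - s j) ^ 2)) -
      (((∑ i, ∑ j, ind (k i = 0) * ind (k j = 1) * (s i - s j) ^ 2) +
        (∑ i, ∑ j, ind (k i = 1) * ind (k j = 0) * (s i - s j) ^ 2)) +
       ((∑ i, ∑ j, ind (k i = 1) * ind (k j = 2) * (s i - s j) ^ 2) +
        (∑ i, ∑ j, ind (k i = 2) * ind (k j = 1) * (s i - s j) ^ 2)) +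
       ((∑ i, ∑ j, ind (k i = 2) * ind (k j = 3) * (s i - s j) ^ 2) +
        (∑ i, ∑ j, ind (k i = 3) * ind (k j = 2) * (s i - s j) ^ 2)) +
       ((∑ i, ∑ j, ind (k i = 3) * ind (k j = 0) * (s i - s j) ^ 2) +
        (∑ i, ∑ j, ind (k i = 0) * ind (k j = 3) * (s i - s j) ^ 2))) := by
    simp only [← Finset.sum_add_distrib, Finset.mul_sum, ← Finset.sum_sub_distrib]
    refine Finset.sum_congr rfl fun i _ => Finset.sum_congr rfl fun j _ => ?_
    unfold sam adj
    rw [sam_eq, adj_eq]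
    ring
  rw [key]
  simp only [sum_pair]
  have n0 := abs_le.1 (hN 0)
  have n1 := abs_le.1 (hN 1)
  have n2 := abs_le.1 (hN 2)
  have n3 := abs_le.1 (hN 3)
  unfold N at n0 n1 n2 n3
  have hsum : ∑ i, s i = (∑ i, ind (k i = 0) * s i) + (∑ i, ind (k i = 1) * s i) +
      (∑ i, ind (k i = 2) * s i) + (∑ i, ind (k i = 3) * s i) := by
    simp only [← Finset.sum_add_distrib]
    refine Finset.sum_congr rfl fun i _ => ?_
    calc s i = (ind (k i = 0) + ind (k i = 1) + ind (k i = 2) + ind (k i = 3)) * s i := by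
          rw [one_eq, one_mul]
      _ = _ := by ring
  have hQ : Q s = (∑ i, ind (k i = 0) * s i ^ 2) + (∑ i, ind (k i = 1) * s i ^ 2) +
      (∑ i, ind (k i = 2) * s i ^ 2) + (∑ i, ind (k i = 3) * s i ^ 2) := by
    unfold Q
    simp only [← Finset.sum_add_distrib]
    refine Finset.sum_congr rfl fun i _ => ?_
    calc s i ^ 2 = (ind (k i = 0) + ind (k i = 1) + ind (k i = 2) + ind (k i = 3)) * s i ^ 2 := by
          rw [one_eq, one_mul]
      _ = _ := by ring
  have hq : ∀ κ : ZMod 4, 0 ≤ ∑ i, ind (k i = κ) * s i ^ 2 := fun κ =>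
    Finset.sum_nonneg fun i _ => mul_nonneg (ind_nonneg _) (sq_nonneg _)
  have q0 := hq 0
  have q1 := hq 1
  have q2 := hq 2
  have q3 := hq 3
  rw [hsum, hQ] at hs
  rw [hQ]
  generalize (∑ i, ind (k i = 0)) = N0 at *
  generalize (∑ i, ind (k i = 1)) = N1 at *
  generalize (∑ i, ind (k i = 2)) = N2 at *
  generalize (∑ i, ind (k i = 3)) = N3 at *
  generalize (∑ i, ind (k i = 0) * s i ^ 2) = Q0 at *
  generalize (∑ i, ind (k i = 1) * s i ^ 2) = Q1 at *
  generalize (∑ i, ind (k i = 2) * s i ^ 2) = Q2 at *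
  generalize (∑ i, ind (k i = 3) * s i ^ 2) = Q3 at *
  generalize (∑ i, ind (k i = 0) * s i) = e0 at *
  generalize (∑ i, ind (k i = 1) * s i) = e1 at *
  generalize (∑ i, ind (k i = 2) * s i) = e2 at *
  generalize (∑ i, ind (k i = 3) * s i) = e3 at *
  have a0 : Q0 * (3 * N0 - 2 * N1 - 2 * N3) ≤ Q0 * (-(243 / 1000) * n) :=
    mul_le_mul_of_nonneg_left (by linarith [n0.2, n1.1, n3.1]) q0
  have a1 : Q1 * (3 * N1 - 2 * N2 - 2 * N0) ≤ Q1 * (-(243 / 1000) * n) :=
    mul_le_mul_of_nonneg_left (by linarith [n1.2, n2.1, n0.1]) q1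
  have a2 : Q2 * (3 * N2 - 2 * N3 - 2 * N1) ≤ Q2 * (-(243 / 1000) * n) :=
    mul_le_mul_of_nonneg_left (by linarith [n2.2, n3.1, n1.1]) q2
  have a3 : Q3 * (3 * N3 - 2 * N0 - 2 * N2) ≤ Q3 * (-(243 / 1000) * n) :=
    mul_le_mul_of_nonneg_left (by linarith [n3.2, n0.1, n2.1]) q3
  have b1 := sq_nonneg (e0 - e2)
  have b2 := sq_nonneg (e1 - e3)
  have b3 := sq_nonneg (e0 + e2 - e1 - e3)
  have hn : (0 : ℝ) ≤ n := Nat.cast_nonneg n
  have c0 := mul_nonneg hn q0
  have c1 := mul_nonneg hn q1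
  have c2 := mul_nonneg hn q2
  have c3 := mul_nonneg hn q3
  linarith

end Pool.Agent.TH494.KM
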